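import Pool.Graph.R_seed8.Helper581.Sand.Pois
import Pool.Graph.R_pool_sql_team_seeded_9f66d723.W5h98.Pol.Base

/-!
# Crew PS (MP_40d30a_pr): definitions

The abelian sandpile on `ℤ^d` (library definitions `run`, `Percolates`, `poissonField`), the event
that a site topples, and the closure (polluted bootstrap percolation with a robust notion of bad
site) in a three-state configuration.
-/

set_option autoImplicit false

namespace Pool.Agent.H3.PS

open Pool.Agent.Helper581.Sand Pool.Agent.W5h98.Pol

/-- The site `x` topples at least once. -/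
def Topples {d : ℕ} (a : (Fin d → ℤ) → ℤ) (x : Fin d → ℤ) : Prop :=
  ∃ t : ℕ, 2 * (d : ℤ) ≤ run a t x

/-- Number of closed neighbours (state `1`). -/
def nc {d : ℕ} (η : V d → Fin 3) (x : V d) : ℕ :=
  ∑ i : Fin d, ((if η (mv x i 1) = 1 then 1 else 0) + (if η (mv x i (-1)) = 1 then 1 else 0))

/-- Bad sites: more than `s` closed neighbours. -/
def bad {d : ℕ} (s : ℕ) (η : V d → Fin 3) (x : V d) : Prop := s < nc η x

/-- The growth from the seeds (states `0` and `1`; the closed sites will be reversed twice, so that
they topple too unless they are bad): sites which are not bad and have at least `κ`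
supporting directions are added. -/
def grow {d : ℕ} (s κ : ℕ) (η : V d → Fin 3) : ℕ → V d → Prop
  | 0, x => ¬ bad s η x ∧ η x ≠ 2
  | t + 1, x => grow s κ η t x ∨ (¬ bad s η x ∧ ∃ A : Finset (Fin d), κ ≤ A.card ∧
      ∀ i ∈ A, grow s κ η t (mv x i 1) ∨ grow s κ η t (mv x i (-1)))

/-- The state of a site with `n` grains: closed if `n < g`, seed if `h ≤ n`. -/
def stt (g h n : ℕ) : Fin 3 := if n < g then 1 else if h ≤ n then 0 else 2

/-- Twice the indicator of the closed sites, as an integer function. -/
def kk {d : ℕ} (g : ℕ) (ω : V d → ℕ) (x : V d) : ℤ := if ω x < g then 2 else 0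

open Classical in
/-- `0` if `x` has not toppled before time `t`, otherwise `1 +` the last time `s < t` with
`2 d ≤ run a s x`. -/
noncomputable def last {d : ℕ} (a : (Fin d → ℤ) → ℤ) : ℕ → (Fin d → ℤ) → ℕ
  | 0, _ => 0
  | t + 1, x => if 2 * (d : ℤ) ≤ run a t x then t + 1 else last a t x

end Pool.Agent.H3.PS
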