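import Pool.Agent.H3.PS.Stm

/-!
# Crew PS, part ETA: the main theorem from the two bounds
-/

set_option autoImplicit false

namespace Pool.Agent.H3.PS

open MeasureTheory ProbabilityTheory Filter Topology
open Pool.Agent.Helper581.Sand

instance (d : ℕ) (l : NNReal) : IsProbabilityMeasure (poissonField d l) := by
  unfold poissonField; infer_instance

theorem fin_part1 (h1 : S_LOW) (h2 : S_UP) (ε : ℝ) (hε : 0 < ε) (hε1 : ε ≤ 1) :
    ∃ d0 : ℕ, ∀ (d : ℕ), d0 ≤ d → ∀ (l : NNReal),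
    ((l : ℝ) ≤ (1 - ε) * d →
      (poissonField d l).real {ω | Topples (cf ω) 0} ≤ Real.exp (-(ε ^ 2 * d / 32))) ∧
    ((1 + ε) * d ≤ l →
      (poissonField d l).real {ω | ¬ Topples (cf ω) 0} ≤ Real.exp (-(ε ^ 2 * d / 32))) := by
  obtain ⟨d1, hd1⟩ := h2 ε hε hε1
  have hlim : Tendsto (fun d : ℕ => ε ^ 2 * (d : ℝ) / 32) atTop atTop := by
    have : Tendsto (fun d : ℕ => (ε ^ 2 / 32) * (d : ℝ)) atTop atTop :=
      tendsto_natCast_atTop_atTop.const_mul_atTop (by positivity)
    refine this.congr fun d => ?_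
    ring
  obtain ⟨d2, hd2⟩ := eventually_atTop.1 (hlim.eventually_ge_atTop (1 : ℝ))
  refine ⟨max (max d1 d2) 1, fun d hd l => ?_⟩
  have hda : d1 ≤ d := le_trans (le_trans (le_max_left _ _) (le_max_left _ _)) hd
  have hdb : d2 ≤ d := le_trans (le_trans (le_max_right _ _) (le_max_left _ _)) hd
  have hdc : 1 ≤ d := le_trans (le_max_right _ _) hd
  have hx := hd2 d hdb
  set x : ℝ := ε ^ 2 * (d : ℝ) / 32 with hxdef
  have hdpos : (0 : ℝ) < d := by exact_mod_cast hdc
  have hexp2 : 2 ≤ Real.exp x := by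
    have := Real.add_one_le_exp x
    linarith
  constructor
  · intro hl
    have h3 := h1 ε hε hε1 d hdc l hl
    refine h3.trans ?_
    have e1 : ε ^ 2 * (d : ℝ) = 32 * x := by rw [hxdef]; ring
    have e2 : -(ε ^ 2 * (d : ℝ) / 16) = -x + -x := by rw [hxdef]; ring
    rw [e2, e1, Real.exp_add]
    have hx0 : 0 < x := by linarith
    have h4 : 8 / (32 * x) ≤ Real.exp x := by
      rw [div_le_iff₀ (by positivity)]
      nlinarith
    have h5 : 0 < Real.exp (-x) := Real.exp_pos _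
    calc 8 / (32 * x) * (Real.exp (-x) * Real.exp (-x))
        ≤ Real.exp x * (Real.exp (-x) * Real.exp (-x)) := by gcongr
      _ = Real.exp (-x) := by
          rw [← Real.exp_add, ← Real.exp_add]; ring_nf
  · intro hl
    have h3 := hd1 d hda l hl
    refine h3.trans ?_
    have e2 : -(ε ^ 2 * (d : ℝ) / 16) = -x + -x := by rw [hxdef]; ring
    rw [e2, Real.exp_add]
    have h5 : 0 < Real.exp (-x) := Real.exp_pos _
    calc 2 * (Real.exp (-x) * Real.exp (-x)) ≤ Real.exp x * (Real.exp (-x) * Real.exp (-x)) := by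
          gcongr
      _ = Real.exp (-x) := by
          rw [← Real.exp_add, ← Real.exp_add]; ring_nf

theorem FIN (h1 : S_LOW) (h2 : S_UP) : S_FIN := by
  refine ⟨fun ε hε hε1 => fin_part1 h1 h2 ε hε hε1, ?_⟩
  intro η hη0 hη1
  rw [Metric.tendsto_atTop]
  intro r hr
  set ε : ℝ := min (r / 2) (1 / 2) with hεdef
  have hε : 0 < ε := by rw [hεdef]; positivity
  have hε1 : ε ≤ 1 := (min_le_right _ _).trans (by norm_num)
  have hεr : ε < r := lt_of_le_of_lt (min_le_left _ _) (by linarith)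
  obtain ⟨d1, hd1⟩ := fin_part1 h1 h2 ε hε hε1
  have hlim : Tendsto (fun d : ℕ => Real.exp (-(ε ^ 2 * (d : ℝ) / 32))) atTop (𝓝 0) := by
    apply Real.tendsto_exp_neg_atTop_nhds_zero.comp
    have : Tendsto (fun d : ℕ => (ε ^ 2 / 32) * (d : ℝ)) atTop atTop :=
      tendsto_natCast_atTop_atTop.const_mul_atTop (by positivity)
    refine this.congr fun d => ?_
    ring
  obtain ⟨d2, hd2⟩ := eventually_atTop.1 (hlim.eventually (eventually_lt_nhds
    (show (0 : ℝ) < min η (1 - η) by rw [lt_min_iff]; constructor <;> linarith)))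
  refine ⟨max (max d1 d2) 1, fun d hd => ?_⟩
  have hda : d1 ≤ d := le_trans (le_trans (le_max_left _ _) (le_max_left _ _)) hd
  have hdb : d2 ≤ d := le_trans (le_trans (le_max_right _ _) (le_max_left _ _)) hd
  have hdc : 1 ≤ d := le_trans (le_max_right _ _) hd
  have hdpos : (0 : ℝ) < d := by exact_mod_cast hdc
  have hx := hd2 d hdb
  rw [lt_min_iff] at hx
  set L : Set ℝ := {l : ℝ | 0 < l ∧
    η ≤ (poissonField d l.toNNReal).real {ω | Topples (cf ω) 0}} with hL
  have hmem : (1 + ε) * (d : ℝ) ∈ L := by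
    have hpos : 0 < (1 + ε) * (d : ℝ) := by positivity
    refine ⟨hpos, ?_⟩
    have h3 := (hd1 d hda ((1 + ε) * (d : ℝ)).toNNReal).2 (by
      rw [Real.coe_toNNReal _ hpos.le])
    have h4 : (1 : ℝ) ≤ (poissonField d ((1 + ε) * (d : ℝ)).toNNReal).real {ω | Topples (cf ω) 0} +
        (poissonField d ((1 + ε) * (d : ℝ)).toNNReal).real {ω | ¬ Topples (cf ω) 0} := by
      have h5 : (poissonField d ((1 + ε) * (d : ℝ)).toNNReal).real Set.univ = 1 := by simp
      have hsub : (Set.univ : Set ((Fin d → ℤ) → ℕ)) ⊆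
          {ω | Topples (cf ω) 0} ∪ {ω | ¬ Topples (cf ω) 0} := by
        intro ω _
        exact em _
      exact h5.symm.le.trans
        (le_trans (measureReal_mono hsub (measure_ne_top _ _)) (measureReal_union_le _ _))
    linarith
  have hlow : ∀ l ∈ L, (1 - ε) * (d : ℝ) ≤ l := by
    rintro l ⟨hl0, hl⟩
    by_contra hcon
    push Not at hcon
    have h3 := (hd1 d hda l.toNNReal).1 (by rw [Real.coe_toNNReal _ hl0.le]; exact hcon.le)
    linarith
  have hbdd : BddBelow L := ⟨(1 - ε) * (d : ℝ), hlow⟩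
  have hup : sInf L ≤ (1 + ε) * d := csInf_le hbdd hmem
  have hlo : (1 - ε) * d ≤ sInf L := le_csInf ⟨_, hmem⟩ hlow
  rw [Real.dist_eq, abs_lt]
  constructor
  · have : 1 - ε ≤ sInf L / d := by rw [le_div_iff₀ hdpos]; exact hlo
    linarith
  · have : sInf L / d ≤ 1 + ε := by rw [div_le_iff₀ hdpos]; exact hup
    linarith

end Pool.Agent.H3.PS
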