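import Pool.Agent.H3.PS.Stm

/-!
# Crew PS, part LAST (fallback)
-/

set_option autoImplicit false

namespace Pool.Agent.H3.PS

open Pool.Agent.Helper581.Sand

theorem last_le' {d : ℕ} (a : (Fin d → ℤ) → ℤ) (t : ℕ) (x : Fin d → ℤ) : last a t x ≤ t := by
  induction t with
  | zero => simp [last]
  | succ t ih =>
    simp only [last]
    split_ifs
    · exact le_rfl
    · exact ih.trans (Nat.le_succ t)

theorem last_succ_pos {d : ℕ} {a : (Fin d → ℤ) → ℤ} {t : ℕ} {x : Fin d → ℤ}
    (h : 2 * (d : ℤ) ≤ run a t x) : last a (t + 1) x = t + 1 := by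
  simp only [last]; rw [if_pos h]

theorem last_succ_neg {d : ℕ} {a : (Fin d → ℤ) → ℤ} {t : ℕ} {x : Fin d → ℤ}
    (h : ¬ 2 * (d : ℤ) ≤ run a t x) : last a (t + 1) x = last a t x := by
  simp only [last]; rw [if_neg h]

theorem LAST' : S_LAST := by
  intro d a ha t
  induction t with
  | zero =>
    intro x hx
    simp [last] at hx
  | succ t ih =>
    intro x hx
    have hrun : run a (t + 1) x = run a t x + lap (tp (run a t)) x := by
      rw [run_succ, step_eq]
    have hlap : lap (tp (run a t)) x = ∑ i : Fin d, (tp (run a t) (x + Pi.single i 1) +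
        tp (run a t) (x - Pi.single i 1)) - 2 * (d : ℤ) * tp (run a t) x := rfl
    by_cases hxt : 2 * (d : ℤ) ≤ run a t x
    · have h1 : last a (t + 1) x = t + 1 := last_succ_pos hxt
      have h2 : tp (run a t) x = 1 := by unfold tp; rw [if_pos hxt]
      have key : ∀ y : Fin d → ℤ, (if last a (t + 1) x ≤ last a (t + 1) y then (1 : ℤ) else 0) =
          tp (run a t) y := by
        intro y
        rw [h1]
        by_cases hy : 2 * (d : ℤ) ≤ run a t y
        · rw [last_succ_pos hy, if_pos le_rfl]; unfold tp; rw [if_pos hy]
        · rw [last_succ_neg hy, if_neg]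
          · unfold tp; rw [if_neg hy]
          · have := last_le' a t y
            omega
      rw [hrun, hlap, h2]
      have e : ∑ i : Fin d, ((if last a (t + 1) x ≤ last a (t + 1) (x + Pi.single i 1)
          then (1 : ℤ) else 0) + (if last a (t + 1) x ≤ last a (t + 1) (x - Pi.single i 1)
          then (1 : ℤ) else 0)) = ∑ i : Fin d, (tp (run a t) (x + Pi.single i 1) +
        tp (run a t) (x - Pi.single i 1)) := by
        refine Finset.sum_congr rfl fun i _ => ?_
        rw [key, key]
      rw [e]
      linarith
    · have h1 : last a (t + 1) x = last a t x := last_succ_neg hxt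
      rw [h1] at hx
      have h2 : tp (run a t) x = 0 := by unfold tp; rw [if_neg hxt]
      have h3 := ih x hx
      have key : ∀ y : Fin d → ℤ, (if last a (t + 1) x ≤ last a (t + 1) y then (1 : ℤ) else 0) ≤
          (if last a t x ≤ last a t y then (1 : ℤ) else 0) + tp (run a t) y := by
        intro y
        rw [h1]
        by_cases hy : 2 * (d : ℤ) ≤ run a t y
        · have h4 : tp (run a t) y = 1 := by unfold tp; rw [if_pos hy]
          rw [h4]
          split_ifs <;> norm_num
        · have h4 : tp (run a t) y = 0 := by unfold tp; rw [if_neg hy]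
          rw [h4, last_succ_neg hy, add_zero]
      rw [hrun, hlap, h2]
      have h5 : ∑ i : Fin d, ((if last a (t + 1) x ≤ last a (t + 1) (x + Pi.single i 1)
          then (1 : ℤ) else 0) + (if last a (t + 1) x ≤ last a (t + 1) (x - Pi.single i 1)
          then (1 : ℤ) else 0)) ≤ ∑ i : Fin d, ((if last a t x ≤ last a t (x + Pi.single i 1)
          then (1 : ℤ) else 0) + (if last a t x ≤ last a t (x - Pi.single i 1)
          then (1 : ℤ) else 0)) + ∑ i : Fin d, (tp (run a t) (x + Pi.single i 1) +
        tp (run a t) (x - Pi.single i 1)) := by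
        rw [← Finset.sum_add_distrib]
        refine Finset.sum_le_sum fun i _ => ?_
        have a1 := key (x + Pi.single i 1)
        have a2 := key (x - Pi.single i 1)
        linarith
      linarith

end Pool.Agent.H3.PS
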