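import Pool.Agent.H3.PS.Defs

/-!
# Crew PS (MP_40d30a_pr): statements of the parts
-/

set_option autoImplicit false

namespace Pool.Agent.H3.PS

open MeasureTheory ProbabilityTheory Filter Topology
open Pool.Agent.Helper581.Sand Pool.Agent.W5h98.Pol
open Pool.Agent.Results.MP_faaa3e_pr.DenseClosedSites (siteLaw)

/-- LA: least action principle. -/
def S_LA : Prop := ∀ (d : ℕ), 1 ≤ d → ∀ (a k : (Fin d → ℤ) → ℤ), (∀ x, 0 ≤ k x) →
  ∀ x, k x = 0 → Topples (fun y => a y - lap k y) x → Topples a x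

/-- PC: percolation is equivalent to one toppling of every site. -/
def S_PC : Prop := ∀ (d : ℕ), 1 ≤ d → ∀ (a : (Fin d → ℤ) → ℤ),
  (Percolates a ↔ ∀ x, Topples a x)

/-- DET: every site reached by the growth topples in the configuration in which the closed sites
have been reversed. -/
def S_DET : Prop := ∀ (d : ℕ), 1 ≤ d → ∀ (g h s κ : ℕ), 2 * d + 2 * s ≤ g + κ → g ≤ 2 * d →
  s ≤ d → 2 * d + 2 * s ≤ h → ∀ (ω : V d → ℕ) (t : ℕ) (x : V d),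
  grow s κ (fun y => stt g h (ω y)) t x → Topples (fun y => cf ω y - lap (kk g ω) y) x

/-- STG: the library theorem `Pol.stage` with an explicit `δ`. -/
def S_STG : Prop := ∀ (d : ℕ) (κ : ℕ), κ + 1 ≤ d → ∀ (ε δ : ℝ), 0 < δ → δ ≤ ε →
  (256 : ℝ) ^ d * δ ≤ 1 / 2 → 4 * (16 : ℝ) ^ d * δ ≤ ε →
    ∀ (ν : ℕ → Measure Bool) [∀ j, IsProbabilityMeasure (ν j)],
      (∀ j, 1 ≤ j → j ≤ κ → 0 < (ν j).real {true}) → ∀ (N : ℕ), κ ≤ N → ∀ (S : ℤ), 1 ≤ S →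
      ∀ (b : Om d → V d → Prop), (∀ z, Dep (LocF κ N S z : Set (V d × ℕ)) {ω | b ω z}) →
      (∀ z, (Pr d ν).real {ω | b ω z} ≤ δ) → ∀ (F : Om d → V d → Prop),
      (∀ ω, Rule κ (b ω) (F ω)) →
      (∀ ω z, ¬ b ω z → (∃ j, 1 ≤ j ∧ j ≤ κ ∧ sd j S ω z) → F ω z) →
      (Pr d ν).real {ω | ¬ F ω 0} ≤ ε

/-- BP: probability that a site is bad. -/
def S_BP : Prop := ∀ (d : ℕ), 1 ≤ d → ∀ (q ρ : Set.Icc (0 : ℝ) 1) (r s : ℕ) (z : V d),
  (Pr d (law q ρ)).real {ω | bad s (st r ω) z} ≤ 4 ^ d * (q : ℝ) ^ (s + 1)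

/-- MES: measurability of the growth. -/
def S_MES : Prop := ∀ (d s κ t : ℕ) (x : V d),
  MeasurableSet {η : V d → Fin 3 | grow s κ η t x}

/-- CL: probability that the origin is not reached by the growth. -/
def S_CL : Prop := ∀ (d κ s : ℕ), 1 ≤ κ → κ + 1 ≤ d → ∀ (p q δ : ℝ), 0 < p → 0 ≤ q → p + q ≤ 1 →
  0 < δ → 4 ^ d * q ^ (s + 1) ≤ δ → (256 : ℝ) ^ d * δ ≤ 1 / 2 →
  (Measure.infinitePi (fun _ : V d => siteLaw p q)).real
    {η | ¬ ∃ t, grow s κ η t 0} ≤ 4 * (16 : ℝ) ^ d * δ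

/-- MAP: the states of the sites of the Poisson field. -/
def S_MAP : Prop := ∀ (d : ℕ) (l : NNReal) (g h : ℕ), g ≤ h → ∀ E : Set (V d → Fin 3),
  MeasurableSet E →
  (poissonField d l).real {ω | (fun y => stt g h (ω y)) ∈ E} =
    (Measure.infinitePi (fun _ : V d => siteLaw ((poissonMeasure l).real {n | h ≤ n})
      ((poissonMeasure l).real {n | n < g}))).real E

/-- PL: lower tail of the Poisson law. -/
def S_PL : Prop := ∀ (ε : ℝ), 0 < ε → ε ≤ 1 → ∀ (d : ℕ) (l : NNReal), (1 + ε) * d ≤ l →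
  (poissonMeasure l).real {n : ℕ | (n : ℝ) < (1 + ε / 2) * d} ≤ Real.exp (-(ε ^ 2 * d / 16))

/-- PU: upper tail of the Poisson law, in the mean. -/
def S_PU : Prop := ∀ (ε : ℝ), 0 < ε → ε ≤ 1 → ∀ (d : ℕ) (l : NNReal), (l : ℝ) ≤ (1 - ε) * d →
  Integrable (fun n : ℕ => max 0 ((n : ℝ) - (1 - ε / 2) * d)) (poissonMeasure l) ∧
  ∫ n : ℕ, max 0 ((n : ℝ) - (1 - ε / 2) * d) ∂(poissonMeasure l) ≤
    4 / ε * Real.exp (-(ε ^ 2 * d / 16))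

/-- LAST: the height of a site which has toppled is at least the number of neighbours whose last
toppling is not earlier. -/
def S_LAST : Prop := ∀ (d : ℕ), ∀ (a : (Fin d → ℤ) → ℤ), (∀ x, 0 ≤ a x) → ∀ (t : ℕ)
  (x : Fin d → ℤ), 1 ≤ last a t x →
  ∑ i : Fin d, ((if last a t x ≤ last a t (x + Pi.single i 1) then (1 : ℤ) else 0) +
    (if last a t x ≤ last a t (x - Pi.single i 1) then (1 : ℤ) else 0)) ≤ run a t x

/-- MT: mass transport. -/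
def S_MT : Prop := ∀ (d : ℕ), 1 ≤ d → ∀ (l : NNReal) (t : ℕ),
  (d : ℝ) * (poissonField d l).real {ω | 1 ≤ last (cf ω) t 0} ≤
    ∫ ω in {ω | 1 ≤ last (cf ω) t 0}, (ω 0 : ℝ) ∂(poissonField d l)

/-- LOW: below density `d` a site rarely topples. -/
def S_LOW : Prop := ∀ (ε : ℝ), 0 < ε → ε ≤ 1 → ∀ (d : ℕ), 1 ≤ d → ∀ (l : NNReal),
  (l : ℝ) ≤ (1 - ε) * d →
  (poissonField d l).real {ω | Topples (cf ω) 0} ≤ 8 / (ε ^ 2 * d) * Real.exp (-(ε ^ 2 * d / 16))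

/-- UP: above density `d` a site topples with high probability. -/
def S_UP : Prop := ∀ (ε : ℝ), 0 < ε → ε ≤ 1 → ∃ d0 : ℕ, ∀ (d : ℕ), d0 ≤ d → ∀ (l : NNReal),
  (1 + ε) * d ≤ l →
  (poissonField d l).real {ω | ¬ Topples (cf ω) 0} ≤ 2 * Real.exp (-(ε ^ 2 * d / 16))

/-- FIN: the main theorem. -/
def S_FIN : Prop := (∀ (ε : ℝ), 0 < ε → ε ≤ 1 → ∃ d0 : ℕ, ∀ (d : ℕ), d0 ≤ d → ∀ (l : NNReal),
    ((l : ℝ) ≤ (1 - ε) * d →
      (poissonField d l).real {ω | Topples (cf ω) 0} ≤ Real.exp (-(ε ^ 2 * d / 32))) ∧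
    ((1 + ε) * d ≤ l →
      (poissonField d l).real {ω | ¬ Topples (cf ω) 0} ≤ Real.exp (-(ε ^ 2 * d / 32)))) ∧
  (∀ η : ℝ, 0 < η → η < 1 → Tendsto (fun d : ℕ => sInf {l : ℝ | 0 < l ∧
    η ≤ (poissonField d l.toNNReal).real {ω | Topples (cf ω) 0}} / (d : ℝ)) atTop (𝓝 1))

end Pool.Agent.H3.PS
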