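import Pool.Agent.H3.PS.Stm

/-!
# Crew PS, part UP: above density `d` a typical site topples
-/

set_option autoImplicit false

namespace Pool.Agent.H3.PS

open MeasureTheory ProbabilityTheory Filter Topology
open Pool.Agent.Helper581.Sand Pool.Agent.W5h98.Pol
open Pool.Agent.Results.MP_faaa3e_pr.DenseClosedSites (siteLaw)

theorem up_num (ε : ℝ) (hε : 0 < ε) (hε1 : ε ≤ 1) (d : ℕ) (hd : 2560 / ε ^ 3 ≤ (d : ℝ)) :
    2 ≤ d ∧
    2 * d + 2 * ⌊ε * d / 16⌋₊ ≤ ⌈(1 + ε / 2) * (d : ℝ)⌉₊ + (d - 1) ∧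
    ⌈(1 + ε / 2) * (d : ℝ)⌉₊ ≤ 2 * d ∧ ⌊ε * d / 16⌋₊ ≤ d ∧
    (256 : ℝ) ^ d * (4 ^ d * Real.exp (-(ε ^ 2 * d / 16)) ^ (⌊ε * d / 16⌋₊ + 1)) ≤ 1 / 2 ∧
    4 * (16 : ℝ) ^ d * (4 ^ d * Real.exp (-(ε ^ 2 * d / 16)) ^ (⌊ε * d / 16⌋₊ + 1)) ≤
      Real.exp (-(ε ^ 2 * d / 16)) := by
  have he3 : 0 < ε ^ 3 := by positivity
  have hkey : 2560 ≤ ε ^ 3 * d := by
    rw [div_le_iff₀ he3] at hd
    linarith
  have he31 : ε ^ 3 ≤ ε := by
    calc ε ^ 3 = ε * (ε ^ 2) := by ring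
      _ ≤ ε * 1 := by gcongr; exact pow_le_one₀ hε.le hε1
      _ = ε := mul_one ε
  have hd0 : (0 : ℝ) ≤ d := Nat.cast_nonneg d
  have hεd : 2560 ≤ ε * d := le_trans hkey (mul_le_mul_of_nonneg_right he31 hd0)
  have hdbig : (2560 : ℝ) ≤ d := by
    refine le_trans hεd ?_
    calc ε * (d : ℝ) ≤ 1 * d := mul_le_mul_of_nonneg_right hε1 hd0
      _ = d := one_mul _
  have hd2 : 2560 ≤ d := by exact_mod_cast hdbig
  set s := ⌊ε * (d : ℝ) / 16⌋₊ with hs
  set g := ⌈(1 + ε / 2) * (d : ℝ)⌉₊ with hg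
  have hs1 : (s : ℝ) ≤ ε * d / 16 := Nat.floor_le (by positivity)
  have hs2 : ε * (d : ℝ) / 16 ≤ (s : ℝ) + 1 := (Nat.lt_floor_add_one _).le
  have hg1 : (1 + ε / 2) * (d : ℝ) ≤ g := Nat.le_ceil _
  have hg2 : (g : ℝ) < (1 + ε / 2) * (d : ℝ) + 1 := Nat.ceil_lt_add_one (by positivity)
  set Q := Real.exp (-(ε ^ 2 * (d : ℝ) / 16)) with hQ
  have hQs : Q ^ (s + 1) ≤ Real.exp (-(10 * (d : ℝ))) := by
    rw [hQ, ← Real.exp_nat_mul, Real.exp_le_exp]
    push_cast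
    have h1 : ε ^ 2 * (d : ℝ) / 16 * (ε * d / 16) ≤ ε ^ 2 * (d : ℝ) / 16 * ((s : ℝ) + 1) :=
      mul_le_mul_of_nonneg_left hs2 (by positivity)
    have h2 : ε ^ 2 * (d : ℝ) / 16 * (ε * d / 16) = (ε ^ 3 * d) * d / 256 := by ring
    have h3 : 2560 * (d : ℝ) / 256 ≤ (ε ^ 3 * d) * d / 256 := by
      apply div_le_div_of_nonneg_right _ (by norm_num)
      exact mul_le_mul_of_nonneg_right hkey hd0
    nlinarith
  have e1 : (1 : ℝ) + 1 ≤ Real.exp 1 := Real.add_one_le_exp 1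
  have e27 : (2.7 : ℝ) ≤ Real.exp 1 := by
    have := Real.exp_one_gt_d9
    linarith
  have hp4 : (4 : ℝ) ^ d ≤ Real.exp (2 * (d : ℝ)) := by
    have : (4 : ℝ) ≤ Real.exp 2 := by
      have e : Real.exp 2 = Real.exp 1 * Real.exp 1 := by rw [← Real.exp_add]; norm_num
      rw [e]; nlinarith
    calc (4 : ℝ) ^ d ≤ (Real.exp 2) ^ d := pow_le_pow_left₀ (by norm_num) this d
      _ = Real.exp (2 * (d : ℝ)) := by rw [← Real.exp_nat_mul]; ring_nf
  have hp16 : (16 : ℝ) ^ d ≤ Real.exp (4 * (d : ℝ)) := by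
    calc (16 : ℝ) ^ d = 4 ^ d * 4 ^ d := by rw [← mul_pow]; norm_num
      _ ≤ Real.exp (2 * (d : ℝ)) * Real.exp (2 * (d : ℝ)) := by gcongr
      _ = Real.exp (4 * (d : ℝ)) := by rw [← Real.exp_add]; ring_nf
  have hp256 : (256 : ℝ) ^ d ≤ Real.exp (6 * (d : ℝ)) := by
    have h6 : (256 : ℝ) ≤ Real.exp 6 := by
      have e : Real.exp 6 = Real.exp 1 ^ 6 := by rw [← Real.exp_nat_mul]; norm_num
      rw [e]
      calc (256 : ℝ) ≤ 2.7 ^ 6 := by norm_num
        _ ≤ Real.exp 1 ^ 6 := pow_le_pow_left₀ (by norm_num) e27 6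
    calc (256 : ℝ) ^ d ≤ (Real.exp 6) ^ d := pow_le_pow_left₀ (by norm_num) h6 d
      _ = Real.exp (6 * (d : ℝ)) := by rw [← Real.exp_nat_mul]; ring_nf
  have hQpos : 0 ≤ Q ^ (s + 1) := by positivity
  refine ⟨by omega, ?_, ?_, ?_, ?_, ?_⟩
  · have h1 : (2 * (d : ℝ) + 2 * s + 1) ≤ g + d := by nlinarith
    have h2 : 2 * d + 2 * s + 1 ≤ g + d := by exact_mod_cast h1
    omega
  · have h1 : (g : ℝ) ≤ 2 * d := by nlinarith
    exact_mod_cast h1
  · have h1 : (s : ℝ) ≤ d := by nlinarith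
    exact_mod_cast h1
  · calc (256 : ℝ) ^ d * (4 ^ d * Q ^ (s + 1))
        ≤ Real.exp (6 * (d : ℝ)) * (Real.exp (2 * (d : ℝ)) * Real.exp (-(10 * (d : ℝ)))) := by
          gcongr
      _ = Real.exp (-(2 * (d : ℝ))) := by
          rw [← Real.exp_add, ← Real.exp_add]; ring_nf
      _ ≤ Real.exp (-1) := by rw [Real.exp_le_exp]; linarith
      _ ≤ 1 / 2 := by
          rw [Real.exp_neg, inv_eq_one_div]
          exact one_div_le_one_div_of_le (by norm_num) (by linarith)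
  · have h4 : (4 : ℝ) ≤ Real.exp 2 := by
      have e : Real.exp 2 = Real.exp 1 * Real.exp 1 := by rw [← Real.exp_add]; norm_num
      rw [e]; nlinarith
    calc 4 * (16 : ℝ) ^ d * (4 ^ d * Q ^ (s + 1))
        ≤ Real.exp 2 * Real.exp (4 * (d : ℝ)) *
            (Real.exp (2 * (d : ℝ)) * Real.exp (-(10 * (d : ℝ)))) := by
          gcongr
      _ = Real.exp (2 - 4 * (d : ℝ)) := by
          rw [← Real.exp_add, ← Real.exp_add, ← Real.exp_add]; ring_nf
      _ ≤ Q := by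
          rw [hQ, Real.exp_le_exp]
          have : ε ^ 2 * (d : ℝ) ≤ 1 * d :=
            mul_le_mul_of_nonneg_right (pow_le_one₀ hε.le hε1) hd0
          linarith

theorem UP (hLA : S_LA) (hDET : S_DET) (hCL : S_CL) (hMAP : S_MAP) (hMES : S_MES)
    (hPL : S_PL) : S_UP := by
  intro ε hε hε1
  refine ⟨⌈2560 / ε ^ 3⌉₊, fun d hd l hl => ?_⟩
  have hdR : 2560 / ε ^ 3 ≤ (d : ℝ) := (Nat.le_ceil _).trans (by exact_mod_cast hd)
  obtain ⟨hd2, n1, n2, n3, n4, n5⟩ := up_num ε hε hε1 d hdR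
  set s := ⌊ε * (d : ℝ) / 16⌋₊ with hs
  set g := ⌈(1 + ε / 2) * (d : ℝ)⌉₊ with hg
  set Q := Real.exp (-(ε ^ 2 * (d : ℝ) / 16)) with hQ
  set h : ℕ := 2 * d + 2 * s with hh
  have hdpos : (0 : ℝ) < d := by exact_mod_cast (by omega : 0 < d)
  have hlpos : 0 < (l : ℝ) := lt_of_lt_of_le (by positivity) hl
  set p : ℝ := (poissonMeasure l).real {n | h ≤ n} with hp
  set q : ℝ := (poissonMeasure l).real {n | n < g} with hq
  have hqQ : q ≤ Q := by
    have e : {n : ℕ | n < g} = {n : ℕ | (n : ℝ) < (1 + ε / 2) * d} := by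
      ext n
      simp only [Set.mem_ofPred_eq, hg, Nat.lt_ceil]
    rw [hq, e]
    exact hPL ε hε hε1 d l hl
  have hq0 : 0 ≤ q := measureReal_nonneg
  have hp0 : 0 < p := by
    have h1 : (poissonMeasure l).real {h} ≤ p :=
      measureReal_mono (by intro n hn; rw [Set.mem_singleton_iff] at hn; exact hn.ge)
        (measure_ne_top _ _)
    have h2 : (poissonMeasure l).real {h} = pw l h := pw_real l h
    have h3 : 0 < pw l h := by unfold pw; positivity
    linarith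
  have hpq : p + q ≤ 1 := by
    have hdisj : Disjoint {n : ℕ | h ≤ n} {n : ℕ | n < g} := by
      rw [Set.disjoint_left]
      intro n hn1 hn2
      simp only [Set.mem_ofPred_eq] at hn1 hn2
      omega
    rw [hp, hq, ← measureReal_union hdisj (Set.to_countable _).measurableSet]
    exact measureReal_le_one
  set δ : ℝ := 4 ^ d * Q ^ (s + 1) with hδ
  have hδ0 : 0 < δ := by rw [hδ]; positivity
  have hclos := hCL d (d - 1) s (by omega) (by omega) p q δ hp0 hq0 hpq hδ0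
    (by rw [hδ]; gcongr) n4
  have hEm : MeasurableSet {η : V d → Fin 3 | ¬ ∃ t, grow s (d - 1) η t 0} := by
    have e : {η : V d → Fin 3 | ¬ ∃ t, grow s (d - 1) η t 0} =
        (⋃ t, {η : V d → Fin 3 | grow s (d - 1) η t 0})ᶜ := by
      ext η
      simp
    rw [e]
    exact (MeasurableSet.iUnion fun t => hMES d s (d - 1) t 0).compl
  have hmap := hMAP d l g h (by omega) _ hEm
  have hsub : {ω : (Fin d → ℤ) → ℕ | ¬ Topples (cf ω) 0} ⊆
      {ω | ω 0 < g} ∪ {ω | (fun y => stt g h (ω y)) ∈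
        {η : V d → Fin 3 | ¬ ∃ t, grow s (d - 1) η t 0}} := by
    intro ω hω
    by_contra hcon
    rw [Set.mem_union, not_or] at hcon
    obtain ⟨hc1, hc2⟩ := hcon
    simp only [Set.mem_ofPred_eq, not_lt, not_not] at hc1 hc2
    obtain ⟨t, ht⟩ := hc2
    apply hω
    have hk0 : kk g ω 0 = 0 := by
      unfold kk
      rw [if_neg (by omega)]
    have htop := hDET d (by omega) g h s (d - 1) n1 n2 n3 le_rfl ω t 0 ht
    exact hLA d (by omega) (cf ω) (kk g ω) (fun x => by unfold kk; split_ifs <;> norm_num) 0 hk0 htop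
  have hone : (poissonField d l).real {ω | ω 0 < g} = q := by
    have h1 := measurePreserving_eval_infinitePi (fun _ : Fin d → ℤ => poissonMeasure l) 0
    have h2 := h1.measureReal_preimage (s := {n : ℕ | n < g})
      (Set.to_countable _).measurableSet.nullMeasurableSet
    exact h2
  calc (poissonField d l).real {ω | ¬ Topples (cf ω) 0}
      ≤ _ := measureReal_mono hsub (by
        have : IsProbabilityMeasure (poissonField d l) := by unfold poissonField; infer_instance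
        exact measure_ne_top _ _)
    _ ≤ _ := measureReal_union_le _ _
    _ ≤ Q + Q := by
        rw [hone, hmap]
        exact add_le_add hqQ (hclos.trans n5)
    _ = 2 * Q := by ring

end Pool.Agent.H3.PS
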